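import Pool.Agent.MVS.Stmts

/-!
# Squad MVS, row INV: the differential of the normal exponential map is injective
-/

set_option autoImplicit false

noncomputable section

open scoped ContDiff Topology RealInnerProductSpace
open Set MeasureTheory

namespace Pool.Agent.MVS.H27

open Pool.Agent.RF Pool.Agent.MVS

theorem inv (hR : RotStatement) (hB : BndStatement) : InvStatement := by
  intro G κ a b F hS hF z hz hlt
  obtain ⟨r1, -, -, -, r5, r6, r7, r8, -⟩ := hR
  have hσ0 : pP κ (pN κ z) = 0 := r7 κ z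
  have hy0 : pN κ (pP κ z) = 0 := r8 κ z
  have hpos : ∀ v, G (pN κ z) v v ≤ 0 → v = 0 := by
    intro v hv
    by_contra hne
    exact absurd (hS.cyl.metric.pos (pN κ z) hz v hne) (not_lt.2 hv)
  rw [injective_iff_map_eq_zero]
  intro u hu
  by_cases hy : pP κ z = 0
  · have hzz : pN κ z = z := by
      have e := r1 κ z
      rw [hy, add_zero] at e
      exact e
    have e1 : fderiv ℝ F (pN κ z) (pN κ u) = pN κ u := hF.dN _ hσ0 hz _ (r7 κ u)
    have e2 : fderiv ℝ F (pN κ z) u = 0 := by rw [hzz]; exact hu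
    have e3 : pN κ u + fderiv ℝ F (pN κ z) (pP κ u) = 0 := by
      rw [← e1, ← map_add, r1 κ u, e2]
    have e4 : pN κ u = 0 := by
      have e5 := congrArg (pN κ) e3
      rw [map_add, r6, hF.dP _ hσ0 hz _ (r8 κ u), add_zero, map_zero] at e5
      exact e5
    have e6 : fderiv ℝ F (pN κ z) (pP κ u) = 0 := by
      rw [e4, zero_add] at e3
      exact e3
    have e7 := hF.iso _ hσ0 hz _ _ (r8 κ u) (r8 κ u)
    rw [e6, map_zero] at e7
    have e8 : pP κ u = 0 := inner_self_eq_zero.1 e7.symm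
    rw [← r1 κ u, e4, e8, add_zero]
  · set t : ℝ := ‖pP κ z‖ with ht
    have ht0 : 0 < t := norm_pos_iff.2 hy
    have hn : ‖t⁻¹ • pP κ z‖ = 1 := by
      rw [norm_smul, norm_inv, Real.norm_of_nonneg ht0.le, ← ht]
      exact inv_mul_cancel₀ ht0.ne'
    have hNy : pN κ (t⁻¹ • pP κ z) = 0 := by rw [map_smul, hy0, smul_zero]
    have hz2 : pN κ z + t • (t⁻¹ • pP κ z) = z := by
      rw [smul_smul, mul_inv_cancel₀ ht0.ne', one_smul, r1 κ z]
    have hNw : pN κ (pN κ u + t⁻¹ • pP κ u) = pN κ u := by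
      rw [map_add, map_smul, r6, r8, smul_zero, add_zero]
    have hPw : pP κ (pN κ u + t⁻¹ • pP κ u) = t⁻¹ • pP κ u := by
      rw [map_add, map_smul, r5, r7, zero_add]
    have hV : Vf κ F (pN κ z) (t⁻¹ • pP κ z) (pN κ u + t⁻¹ • pP κ u) t = 0 := by
      unfold Vf
      rw [hz2, hNw, hPw, smul_smul, mul_inv_cancel₀ ht0.ne', one_smul, r1 κ u, hu]
    obtain ⟨b1, b2⟩ := hB G κ a b F hS hF (pN κ z) (t⁻¹ • pP κ z) hσ0 hz hNy hn
      (pN κ u + t⁻¹ • pP κ u) t
    have hpi := Real.pi_pos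
    have c1 := (b1 ht0.le hlt).2
    rw [hV, map_zero] at c1
    have hcos : 0 < Real.cos t := Real.cos_pos_of_mem_Ioo ⟨by linarith, hlt⟩
    have c2 : pN κ (pN κ u + t⁻¹ • pP κ u) = 0 := by
      apply hpos
      by_contra hc
      push Not at hc
      have : 0 < G (pN κ z) (pN κ (pN κ u + t⁻¹ • pP κ u)) (pN κ (pN κ u + t⁻¹ • pP κ u)) *
          Real.cos t ^ 2 := mul_pos hc (by positivity)
      linarith
    have c3 := (b2 c2 ht0 (by linarith)).2
    rw [hV, map_zero] at c3
    have hsin : 0 < Real.sin t := Real.sin_pos_of_pos_of_lt_pi ht0 (by linarith)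
    have c4 : pN κ u + t⁻¹ • pP κ u = 0 := by
      by_contra hne
      have h1 : 0 < ⟪pN κ u + t⁻¹ • pP κ u, pN κ u + t⁻¹ • pP κ u⟫ * Real.sin t ^ 2 :=
        mul_pos (real_inner_self_pos.2 hne) (by positivity)
      linarith
    have c5 : pN κ u = 0 := by rw [← hNw, c2]
    have c6 : pP κ u = 0 := by
      rw [c5, zero_add] at c4
      exact (smul_eq_zero.1 c4).resolve_left (inv_ne_zero ht0.ne')
    rw [← r1 κ u, c5, c6, add_zero]

end Pool.Agent.MVS.H27

end
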